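import Mathlib

/-!
# MP_231d99_co: monochromatic concatenations of factors with bounded gaps

For every infinite word `x` which is not eventually periodic there is one finite colouring `χ` of
the set of all finite words such that for every `C` no sequence of factors of `x` is `C`-good.

Method.  The colour of `w` records whether `w` is a factor, whether `|w| ≥ F (A w)` for a fast
growing function `F` which depends on `x`, the parity of the scale of `A w` with respect to `F`, and
whether there is a small `N` (small compared with `A w`) such that `x_t = x_{t + |w|}` for all `t`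
with `N ≤ t < A w`.  For a `C`-good sequence the first three properties and the fact that `x` is not
eventually periodic imply that the first occurrence of a concatenation `v u_j` ends where the first
occurrence of `u_j` ends, that all gaps after some index vanish, and that then the last property
holds for `u_j` and fails for `u_i u_j` (`i` fixed and `j` large).
-/

namespace Pool.Agent.Results.MP_231d99_co.BoundedGaps

universe v

variable {X : Type v}

/-- The word `w` occurs in `x` at position `a` (positions are counted from `0`). -/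
def OccursAt (x : ℕ → X) (w : List X) (a : ℕ) : Prop :=
  ∀ k (h : k < w.length), w[k] = x (a + k)

/-- `w` is a factor of `x`: a nonempty word which occurs in `x`. -/
def IsFactor (x : ℕ → X) (w : List X) : Prop := w ≠ [] ∧ ∃ a, OccursAt x w a

/-- `A_x(w)`: the position of the first occurrence of `w` in `x`. -/
noncomputable def A (x : ℕ → X) (w : List X) : ℕ := sInf {a | OccursAt x w a}

/-- `B_x(w)`: the first position after the first occurrence of `w` in `x`. -/
noncomputable def B (x : ℕ → X) (w : List X) : ℕ := A x w + w.length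

/-- `x` is eventually periodic. -/
def EventuallyPeriodic (x : ℕ → X) : Prop := ∃ p ≥ 1, ∃ N, ∀ i ≥ N, x (i + p) = x i

/-- The sequence `u 0, u 1, ...` of factors of `x` is `C`-good for the colouring `χ`. -/
def IsGood {r : ℕ} (x : ℕ → X) (χ : List X → Fin r) (C : ℕ) (u : ℕ → List X) : Prop :=
  (∀ n, IsFactor x (u n)) ∧
  (∀ n, B x (u n) ≤ A x (u (n + 1)) ∧ A x (u (n + 1)) ≤ B x (u n) + C) ∧
  ∃ c, ∀ l : List ℕ, l ≠ [] → l.Pairwise (· < ·) → χ ((l.map u).flatten) = c

theorem exists_modulus (x : ℕ → X) (hx : ¬ EventuallyPeriodic x) :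
    ∃ M : ℕ → ℕ, Monotone M ∧ ∀ N a p, a ≤ N → 1 ≤ p → p ≤ N →
      ∃ t, a ≤ t ∧ t + p < M N ∧ x (t + p) ≠ x t := by
  have h1 : ∀ a p, ∃ t, 1 ≤ p → a ≤ t ∧ x (t + p) ≠ x t := by
    intro a p
    by_contra hcon
    push Not at hcon
    have hp : 1 ≤ p := (hcon 0).1
    exact hx ⟨p, hp, a, fun i hi => (hcon i).2 hi⟩
  choose T hT using h1
  refine ⟨fun N => 1 + ∑ a ∈ Finset.range (N + 1), ∑ p ∈ Finset.range (N + 1), (T a p + p),
    ?_, ?_⟩
  · intro N N' h
    have hsub : Finset.range (N + 1) ⊆ Finset.range (N' + 1) :=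
      Finset.range_subset_range.2 (by omega)
    have h2 : ∑ a ∈ Finset.range (N + 1), ∑ p ∈ Finset.range (N + 1), (T a p + p) ≤
        ∑ a ∈ Finset.range (N' + 1), ∑ p ∈ Finset.range (N' + 1), (T a p + p) :=
      (Finset.sum_le_sum fun a _ => Finset.sum_le_sum_of_subset hsub).trans
        (Finset.sum_le_sum_of_subset hsub)
    exact Nat.add_le_add_left h2 1
  · intro N a p ha hp hpN
    refine ⟨T a p, (hT a p hp).1, ?_, (hT a p hp).2⟩
    have h2 : T a p + p ≤ ∑ p ∈ Finset.range (N + 1), (T a p + p) :=
      Finset.single_le_sum (f := fun p => T a p + p) (fun _ _ => Nat.zero_le _)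
        (Finset.mem_range.2 (by omega))
    have h3 : ∑ p ∈ Finset.range (N + 1), (T a p + p) ≤
        ∑ a ∈ Finset.range (N + 1), ∑ p ∈ Finset.range (N + 1), (T a p + p) :=
      Finset.single_le_sum (f := fun a => ∑ p ∈ Finset.range (N + 1), (T a p + p))
        (fun _ _ => Nat.zero_le _) (Finset.mem_range.2 (by omega))
    show T a p + p < 1 + ∑ a ∈ Finset.range (N + 1), ∑ p ∈ Finset.range (N + 1), (T a p + p)
    omega

theorem exists_scale (G : ℕ → ℕ) (hG : Monotone G) (hG1 : ∀ n, n < G n) :
    ∃ lev : ℕ → Bool, ∀ (a : ℕ → ℕ) (n0 : ℕ), StrictMono a → (∀ n ≥ n0, a (n + 1) < G (a n)) →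
      ¬ ∃ b, ∀ n, lev (a n) = b := by
  classical
  let s : ℕ → ℕ := fun k => G^[k] 0
  have hs0 : s 0 = 0 := rfl
  have hs : ∀ k, s (k + 1) = G (s k) := fun k => Function.iterate_succ_apply' G k 0
  have hsm : StrictMono s := strictMono_nat_of_lt_succ fun k => by rw [hs]; exact hG1 _
  let L : ℕ → ℕ := fun n => Nat.findGreatest (fun k => s k ≤ n) n
  have hL : ∀ n k, k ≤ L n ↔ s k ≤ n := by
    intro n k
    constructor
    · intro h
      have h1 : s (L n) ≤ n := Nat.findGreatest_spec (P := fun k => s k ≤ n) (m := 0)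
        (Nat.zero_le _) (by rw [hs0]; exact Nat.zero_le _)
      exact (hsm.monotone h).trans h1
    · intro h
      exact Nat.le_findGreatest ((hsm.id_le k).trans h) h
  refine ⟨fun n => decide (L n % 2 = 0), ?_⟩
  rintro a n0 ha hstep ⟨b, hb⟩
  have hpar : ∀ n m, (L (a n) % 2 = 0 ↔ L (a m) % 2 = 0) := by
    intro n m
    have := (hb n).trans (hb m).symm
    simpa using this
  have hmono : ∀ n, L (a n) ≤ L (a (n + 1)) := fun n =>
    (hL _ _).2 (((hL _ _).1 le_rfl).trans (ha.monotone (Nat.le_succ n)))
  have hup : ∀ n ≥ n0, L (a (n + 1)) ≤ L (a n) + 1 := by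
    intro n hn
    by_contra hcon
    push Not at hcon
    have h1 : s (L (a n) + 2) ≤ a (n + 1) := (hL _ _).1 hcon
    have h2 : a n < s (L (a n) + 1) := by
      by_contra h
      push Not at h
      have := (hL _ _).2 h
      omega
    have h3 : a (n + 1) < G (s (L (a n) + 1)) := (hstep n hn).trans_le (hG h2.le)
    rw [← hs] at h3
    have h4 : L (a n) + 1 + 1 = L (a n) + 2 := rfl
    rw [h4] at h3
    omega
  have hconst : ∀ n, L (a (n0 + n)) = L (a n0) := by
    intro n
    induction n with
    | zero => rfl
    | succ n ih =>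
      have h1 := hmono (n0 + n)
      have h2 := hup (n0 + n) (by omega)
      have h3 := hpar (n0 + n + 1) (n0 + n)
      have h4 : n0 + (n + 1) = n0 + n + 1 := rfl
      rw [h4]
      omega
  have h5 : s (L (a n0) + 1) ≤ a (n0 + s (L (a n0) + 1)) :=
    (Nat.le_add_left _ _).trans (ha.id_le _)
  have h6 := (hL _ _).2 h5
  rw [hconst] at h6
  omega

theorem A_spec {x : ℕ → X} {w : List X} (h : IsFactor x w) : OccursAt x w (A x w) :=
  Nat.sInf_mem (s := {a | OccursAt x w a}) h.2

theorem A_le {x : ℕ → X} {w : List X} {a : ℕ} (h : OccursAt x w a) : A x w ≤ a :=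
  Nat.sInf_le (s := {a | OccursAt x w a}) h

theorem occursAt_append {x : ℕ → X} {v w : List X} {a : ℕ} :
    OccursAt x (v ++ w) a ↔ OccursAt x v a ∧ OccursAt x w (a + v.length) := by
  constructor
  · intro h
    refine ⟨fun k hk => ?_, fun k hk => ?_⟩
    · have := h k (by rw [List.length_append]; omega)
      rwa [List.getElem_append_left hk] at this
    · have := h (v.length + k) (by rw [List.length_append]; omega)
      rw [List.getElem_append_right (by omega)] at this
      simpa [add_assoc] using this
  · rintro ⟨h1, h2⟩ k hk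
    rw [List.length_append] at hk
    by_cases hk' : k < v.length
    · rw [List.getElem_append_left hk']
      exact h1 k hk'
    · rw [List.getElem_append_right (by omega)]
      have := h2 (k - v.length) (by omega)
      rw [this]
      congr 1
      omega

/-- Two occurrences of the same word at distance `p` give the period `p`. -/
theorem period_of_occurs {x : ℕ → X} {w : List X} {a p : ℕ} (h1 : OccursAt x w a)
    (h2 : OccursAt x w (a + p)) {t : ℕ} (ht : a ≤ t) (ht' : t < a + w.length) :
    x (t + p) = x t := by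
  have e1 := h1 (t - a) (by omega)
  have e2 := h2 (t - a) (by omega)
  have e3 : a + (t - a) = t := by omega
  have e4 : a + p + (t - a) = t + p := by omega
  rw [e3] at e1
  rw [e4] at e2
  exact e2.symm.trans e1

/-- The key lemma. -/
theorem key {x : ℕ → X} {M : ℕ → ℕ} (hM : Monotone M)
    (hMp : ∀ N a p, a ≤ N → 1 ≤ p → p ≤ N → ∃ t, a ≤ t ∧ t + p < M N ∧ x (t + p) ≠ x t)
    {v w : List X} (hw : IsFactor x w) (hvw : IsFactor x (v ++ w))
    (h1 : 2 * M (2 * A x w) + A x w ≤ w.length)
    (h2 : 2 * M (2 * A x (v ++ w)) + A x (v ++ w) ≤ (v ++ w).length)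
    (hv : v.length ≤ A x w) :
    A x (v ++ w) + v.length = A x w := by
  have hocc := occursAt_append.1 (A_spec hvw)
  have hle : A x w ≤ A x (v ++ w) + v.length := A_le hocc.2
  by_contra hne
  have hlt : A x w < A x (v ++ w) + v.length := lt_of_le_of_ne hle (Ne.symm hne)
  rw [List.length_append] at h2
  obtain ⟨t, ht1, ht2, ht3⟩ := hMp (A x (v ++ w) + A x w) (A x w)
    (A x (v ++ w) + v.length - A x w) (by omega) (by omega) (by omega)
  have hocc2 : OccursAt x w (A x w + (A x (v ++ w) + v.length - A x w)) := by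
    have : A x w + (A x (v ++ w) + v.length - A x w) = A x (v ++ w) + v.length := by omega
    rw [this]
    exact hocc.2
  have ht4 : A x w + w.length ≤ t := by
    by_contra hcon
    push Not at hcon
    exact ht3 (period_of_occurs (A_spec hw) hocc2 ht1 hcon)
  rcases le_total (A x (v ++ w)) (A x w) with hc | hc
  · have : M (A x (v ++ w) + A x w) ≤ M (2 * A x w) := hM (by omega)
    omega
  · have : M (A x (v ++ w) + A x w) ≤ M (2 * A x (v ++ w)) := hM (by omega)
    omega

/-- **Positive answer.** If the infinite word `x` over any alphabet `X` is not eventually periodic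
then there is a colouring `χ` of all words over `X` with 16 colours such that for no `C` there is a
sequence of factors of `x` which is `C`-good for `χ`. -/
theorem result (X : Type v) (x : ℕ → X) (hx : ¬ EventuallyPeriodic x) :
    ∃ χ : List X → Fin 16, ∀ (C : ℕ) (u : ℕ → List X), ¬ IsGood x χ C u := by
  classical
  obtain ⟨M, hM, hMp⟩ := exists_modulus x hx
  obtain ⟨lev, hlev⟩ := exists_scale (fun n => 3 * n + 2 * M (2 * n) + 1)
    (fun m n h => by
      have := hM (show 2 * m ≤ 2 * n by omega)
      show 3 * m + 2 * M (2 * m) + 1 ≤ 3 * n + 2 * M (2 * n) + 1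
      omega) (fun n => by show n < 3 * n + 2 * M (2 * n) + 1; omega)
  let P1 : List X → Prop := fun w => 2 * M (2 * A x w) + A x w ≤ w.length
  let P2 : List X → Prop := fun w =>
    ∃ N, M N ≤ A x w ∧ ∀ t, N ≤ t → t < A x w → x t = x (t + w.length)
  let col : List X → Bool × Bool × Bool × Bool := fun w =>
    (decide (IsFactor x w), decide (P1 w), decide (P2 w), lev (A x w))
  let e : Bool × Bool × Bool × Bool ≃ Fin 16 := Fintype.equivFinOfCardEq (by decide)
  refine ⟨fun w => e (col w), ?_⟩
  rintro C u ⟨hu1, hu2, c, hu3⟩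
  have hcol : ∀ l l' : List ℕ, l ≠ [] → l.Pairwise (· < ·) → l' ≠ [] → l'.Pairwise (· < ·) →
      col ((l.map u).flatten) = col ((l'.map u).flatten) := by
    intro l l' h1 h2 h3 h4
    exact e.injective ((hu3 l h1 h2).trans (hu3 l' h3 h4).symm)
  have hfac' : ∀ l l' : List ℕ, l ≠ [] → l.Pairwise (· < ·) → l' ≠ [] → l'.Pairwise (· < ·) →
      IsFactor x ((l'.map u).flatten) → IsFactor x ((l.map u).flatten) := by
    intro l l' h1 h2 h3 h4 h5
    have := congrArg (fun z => z.1) (hcol l l' h1 h2 h3 h4)
    simpa [col, h5] using this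
  have hP1' : ∀ l l' : List ℕ, l ≠ [] → l.Pairwise (· < ·) → l' ≠ [] → l'.Pairwise (· < ·) →
      P1 ((l'.map u).flatten) → P1 ((l.map u).flatten) := by
    intro l l' h1 h2 h3 h4 h5
    have h6 : decide (P1 ((l.map u).flatten)) = decide (P1 ((l'.map u).flatten)) :=
      congrArg (fun z => z.2.1) (hcol l l' h1 h2 h3 h4)
    rw [decide_eq_true h5] at h6
    exact of_decide_eq_true h6
  have hP2' : ∀ l l' : List ℕ, l ≠ [] → l.Pairwise (· < ·) → l' ≠ [] → l'.Pairwise (· < ·) →
      P2 ((l'.map u).flatten) → P2 ((l.map u).flatten) := by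
    intro l l' h1 h2 h3 h4 h5
    have h6 : decide (P2 ((l.map u).flatten)) = decide (P2 ((l'.map u).flatten)) :=
      congrArg (fun z => z.2.2.1) (hcol l l' h1 h2 h3 h4)
    rw [decide_eq_true h5] at h6
    exact of_decide_eq_true h6
  have hsing : ∀ n, (([n] : List ℕ).map u).flatten = u n := fun n => by simp
  have hpw1 : ∀ n : ℕ, ([n] : List ℕ).Pairwise (· < ·) := fun n => List.pairwise_singleton _ _
  -- all concatenations are factors
  have hfac : ∀ l : List ℕ, l ≠ [] → l.Pairwise (· < ·) → IsFactor x ((l.map u).flatten) :=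
    fun l h1 h2 => hfac' l [0] h1 h2 (by simp) (hpw1 0) (by rw [hsing]; exact hu1 0)
  have hpos : ∀ n, 1 ≤ (u n).length := fun n =>
    List.length_pos_iff.2 (hu1 n).1
  have hB : ∀ n, A x (u n) + (u n).length ≤ A x (u (n + 1)) := fun n => (hu2 n).1
  have hB2 : ∀ n, A x (u (n + 1)) ≤ A x (u n) + (u n).length + C := fun n => (hu2 n).2
  have hmono : StrictMono (fun n => A x (u n)) := strictMono_nat_of_lt_succ fun n => by
    have := hB n
    have := hpos n
    show A x (u n) < A x (u (n + 1))
    omega
  have hge : ∀ n, n ≤ A x (u n) := fun n => hmono.id_le n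
  -- `P1` holds for all concatenations
  have hP1 : ∀ l : List ℕ, l ≠ [] → l.Pairwise (· < ·) → P1 ((l.map u).flatten) := by
    by_contra hcon
    push Not at hcon
    obtain ⟨l, h1, h2, h3⟩ := hcon
    have h4 : ∀ n, ¬ P1 (u n) := fun n h => h3 (hP1' l [n] h1 h2 (by simp) (hpw1 n)
      (by rw [hsing]; exact h))
    refine hlev (fun n => A x (u n)) C hmono (fun n hn => ?_) ⟨lev (A x (u 0)), fun n => ?_⟩
    · have h5 : (u n).length < 2 * M (2 * A x (u n)) + A x (u n) := not_le.1 (h4 n)
      have := hB2 n
      have := hge n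
      show A x (u (n + 1)) < 3 * A x (u n) + 2 * M (2 * A x (u n)) + 1
      omega
    · have h6 : lev (A x (([n] : List ℕ).map u).flatten) = lev (A x (([0] : List ℕ).map u).flatten) :=
        congrArg (fun z => z.2.2.2) (hcol [n] [0] (by simp) (hpw1 n) (by simp) (hpw1 0))
      rw [hsing, hsing] at h6
      exact h6
  -- the key lemma for concatenations
  have hkey : ∀ (l : List ℕ) (n : ℕ), (l ++ [n]).Pairwise (· < ·) →
      ((l.map u).flatten).length ≤ A x (u n) →
      IsFactor x ((l.map u).flatten ++ u n) ∧
      A x ((l.map u).flatten ++ u n) + ((l.map u).flatten).length = A x (u n) := by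
    intro l n h1 h2
    have h3 : ((l ++ [n]).map u).flatten = (l.map u).flatten ++ u n := by simp
    have h4 := hfac (l ++ [n]) (by simp) h1
    have h5 := hP1 (l ++ [n]) (by simp) h1
    have h6 := hP1 [n] (by simp) (hpw1 n)
    rw [h3] at h4 h5
    rw [hsing] at h6
    exact ⟨h4, key hM hMp (hu1 n) h4 h6 h5 h2⟩
  have hle : ∀ n m, n < m → A x (u n) + (u n).length ≤ A x (u m) := fun n m h =>
    (hB n).trans (hmono.monotone (show n + 1 ≤ m from h))
  -- no gaps after `u C`
  have hgap : ∀ n, C ≤ n → A x (u (n + 1)) = A x (u n) + (u n).length := by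
    intro n hn
    obtain ⟨h1, h2⟩ := hkey [n] (n + 1) (by simp) (by
      rw [hsing]; have := hB n; omega)
    rw [hsing] at h1 h2
    by_contra hne
    have h3 := hB n
    have h4 := hB2 n
    have h5 : OccursAt x (u n) (A x (u n) + (A x (u (n + 1)) - (A x (u n) + (u n).length))) := by
      have h6 := (occursAt_append.1 (A_spec h1)).1
      have h7 : A x (u n) + (A x (u (n + 1)) - (A x (u n) + (u n).length)) =
          A x (u n ++ u (n + 1)) := by omega
      rw [h7]
      exact h6
    obtain ⟨t, ht1, ht2, ht3⟩ := hMp (A x (u n)) (A x (u n))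
      (A x (u (n + 1)) - (A x (u n) + (u n).length)) le_rfl (by omega)
      (by have := hge n; omega)
    have h8 : A x (u n) + (u n).length ≤ t := by
      by_contra hcon
      push Not at hcon
      exact ht3 (period_of_occurs (A_spec (hu1 n)) h5 ht1 hcon)
    have h9 := hP1 [n] (by simp) (hpw1 n)
    rw [hsing] at h9
    have h10 : M (A x (u n)) ≤ M (2 * A x (u n)) := hM (by omega)
    have h11 : 2 * M (2 * A x (u n)) + A x (u n) ≤ (u n).length := h9
    omega
  -- the concatenation of `u C, ..., u (C + j - 1)` is the block of `x` between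
  -- the positions `A x (u C)` and `A x (u (C + j))`
  have hblock : ∀ j, OccursAt x (((List.range' C j).map u).flatten) (A x (u C)) ∧
      A x (u C) + (((List.range' C j).map u).flatten).length = A x (u (C + j)) := by
    intro j
    induction j with
    | zero => exact ⟨fun k hk => by simp at hk, by simp⟩
    | succ j ih =>
      have h1 : ((List.range' C (j + 1)).map u).flatten =
          ((List.range' C j).map u).flatten ++ u (C + j) := by
        rw [List.range'_concat]; simp
      rw [h1]
      refine ⟨occursAt_append.2 ⟨ih.1, ?_⟩, ?_⟩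
      · rw [ih.2]; exact A_spec (hu1 _)
      · rw [List.length_append, ← add_assoc, ih.2]
        exact (hgap (C + j) (by omega)).symm
  have hper : ∀ j t, A x (u C) ≤ t → t < A x (u (C + j)) →
      x (t + (u (C + j)).length) = x t := by
    intro j t ht1 ht2
    obtain ⟨h1, h2⟩ := hblock j
    have h3 := hgap (C + j) (by omega)
    obtain ⟨h4, h5⟩ := hkey (List.range' C j) (C + j + 1) (by
      rw [List.pairwise_append]
      refine ⟨List.pairwise_lt_range', List.pairwise_singleton _ _, ?_⟩
      intro a ha b hb
      rw [List.mem_range'_1] at ha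
      rw [List.mem_singleton] at hb
      omega) (by omega)
    have h6 := (occursAt_append.1 (A_spec h4)).1
    have h7 : A x (((List.range' C j).map u).flatten ++ u (C + j + 1)) =
        A x (u C) + (u (C + j)).length := by omega
    rw [h7] at h6
    exact period_of_occurs h1 h6 ht1 (by omega)
  -- the final contradiction
  set K := A x (u C) with hK
  set ℓ := (u C).length with hℓ
  set J := M K + M ℓ + ℓ + 1 with hJ
  have hJge : C + J ≤ A x (u (C + J)) := hge _
  have hQ : P2 (u (C + J)) := ⟨K, by omega, fun t ht1 ht2 => (hper J t ht1 ht2).symm⟩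
  obtain ⟨h1, h2⟩ := hkey [C] (C + J) (by simp; omega) (by
    rw [hsing]; have := hle C (C + J) (by omega); omega)
  rw [hsing] at h1 h2
  have h3 : P2 (u C ++ u (C + J)) := by
    have h4 := hP2' [C, C + J] [C + J] (by simp) (by simp; omega) (by simp) (hpw1 _)
      (by rw [hsing]; exact hQ)
    have h5 : (([C, C + J] : List ℕ).map u).flatten = u C ++ u (C + J) := by simp
    rw [h5] at h4
    exact h4
  obtain ⟨N, hN1, hN2⟩ := h3
  have hℓpos : 1 ≤ ℓ := hpos C
  obtain ⟨t, ht1, ht2, ht3⟩ := hMp (max N (max K ℓ)) (max N K) ℓ (by omega) hℓpos (by omega)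
  rw [hM.map_max, hM.map_max] at ht2
  have ht4 : t + ℓ < A x (u C ++ u (C + J)) := by omega
  have e1 := hN2 t (by omega) (by omega)
  have e2 := hper J (t + ℓ) (by omega) (by omega)
  apply ht3
  rw [e1, List.length_append, ← hℓ, ← add_assoc, e2]

end Pool.Agent.Results.MP_231d99_co.BoundedGaps
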